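import Mathlib
import Pool.Agent.K1H42.HP.Stm

/-!
# Piece `S_RED` of the project HP (helper42): reduction to exceptional points
-/

set_option autoImplicit false

namespace Pool.Agent.K1H24.HP

open Module Finset Pool.Agent.K1H42.HP

section lin

variable {F V : Type} [Field F] [AddCommGroup V] [Module F V] [Finite V]

lemma exists_pt {W : Submodule F V} (h : W ≠ ⊥) : ∃ R : Submodule F V, finrank F R = 1 ∧ R ≤ W := by
  obtain ⟨x, hx, hx0⟩ := Submodule.exists_mem_ne_zero_of_ne_bot h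
  refine ⟨Submodule.span F {x}, finrank_span_singleton hx0, ?_⟩
  rw [Submodule.span_singleton_le_iff_mem]
  exact hx

lemma ne_bot_of_finrank {W : Submodule F V} (h : 0 < finrank F W) : W ≠ ⊥ := by
  rintro rfl
  rw [finrank_bot] at h
  omega

lemma pt_inf {R W : Submodule F V} (hR : finrank F R = 1) (h : ¬ R ≤ W) : R ⊓ W = ⊥ := by
  by_contra h1
  obtain ⟨x, hx, hx0⟩ := Submodule.exists_mem_ne_zero_of_ne_bot h1
  apply h
  have h2 : Submodule.span F {x} ≤ R := by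
    rw [Submodule.span_singleton_le_iff_mem]; exact hx.1
  have h3 : Submodule.span F {x} = R :=
    Submodule.eq_of_le_of_finrank_eq h2 (by rw [finrank_span_singleton hx0, hR])
  rw [← h3, Submodule.span_singleton_le_iff_mem]
  exact hx.2

lemma finrank_sup_pt {R W : Submodule F V} (hR : finrank F R = 1) (h : ¬ R ≤ W) :
    finrank F (W ⊔ R : Submodule F V) = finrank F W + 1 := by
  have h1 := Submodule.finrank_sup_add_finrank_inf_eq W R
  rw [inf_comm, pt_inf hR h, finrank_bot, hR] at h1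
  omega

lemma eq_of_pts {R W : Submodule F V} (hR : finrank F R = 1) (hW : finrank F W = 1) (h : R ≤ W) :
    R = W := Submodule.eq_of_le_of_finrank_eq h (by rw [hR, hW])

/-- two different points of a line span it -/
lemma sup_pts {L P R : Submodule F V} (hL : finrank F L = 2) (hP : finrank F P = 1)
    (hR : finrank F R = 1) (hPR : P ≠ R) (hPL : P ≤ L) (hRL : R ≤ L) : P ⊔ R = L := by
  refine Submodule.eq_of_le_of_finrank_eq (sup_le hPL hRL) ?_
  rw [finrank_sup_pt hR (fun h => hPR (eq_of_pts hR hP h).symm), hP, hL]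

/-- pairwise meeting lines -/
lemma lines {S : Set (Submodule F V)} (h2 : ∀ L ∈ S, finrank F L = 2)
    (hm : ∀ L ∈ S, ∀ L' ∈ S, L ⊓ L' ≠ ⊥) :
    (∃ E : Submodule F V, finrank F E ≤ 3 ∧ ∀ L ∈ S, L ≤ E) ∨
      (∃ P : Submodule F V, finrank F P = 1 ∧ ∀ L ∈ S, P ≤ L) := by
  by_cases hne : S.Nonempty
  swap
  · left
    refine ⟨⊥, by rw [finrank_bot]; omega, fun L hL => absurd ⟨L, hL⟩ hne⟩
  obtain ⟨L₁, hL₁⟩ := hne
  by_cases hex : ∃ L₂ ∈ S, L₂ ≠ L₁
  swap
  · push Not at hex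
    left
    refine ⟨L₁, by rw [h2 L₁ hL₁]; omega, fun L hL => (hex L hL).le⟩
  obtain ⟨L₂, hL₂, hne12⟩ := hex
  obtain ⟨P, hP, hPle⟩ := exists_pt (hm L₁ hL₁ L₂ hL₂)
  have hPeq : L₁ ⊓ L₂ = P := by
    have h1 : finrank F (L₁ ⊓ L₂ : Submodule F V) ≤ 1 := by
      by_contra h
      have h3 : L₁ ⊓ L₂ = L₁ := Submodule.eq_of_le_of_finrank_le inf_le_left
        (by rw [h2 L₁ hL₁]; omega)
      have h4 : L₁ ≤ L₂ := by rw [← h3]; exact inf_le_right
      exact hne12 (Submodule.eq_of_le_of_finrank_eq h4 (by rw [h2 L₁ hL₁, h2 L₂ hL₂])).symm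
    exact (Submodule.eq_of_le_of_finrank_le hPle (by rw [hP]; exact h1)).symm
  have hE : finrank F (L₁ ⊔ L₂ : Submodule F V) = 3 := by
    have h1 := Submodule.finrank_sup_add_finrank_inf_eq L₁ L₂
    rw [hPeq, hP, h2 L₁ hL₁, h2 L₂ hL₂] at h1
    omega
  have hPL₁ : P ≤ L₁ := hPeq ▸ inf_le_left
  have hPL₂ : P ≤ L₂ := hPeq ▸ inf_le_right
  by_cases hall : ∀ L ∈ S, P ≤ L
  · right
    exact ⟨P, hP, hall⟩
  left
  push Not at hall
  obtain ⟨L₃, hL₃, hPL₃⟩ := hall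
  have claim : ∀ L ∈ S, ¬ P ≤ L → L ≤ L₁ ⊔ L₂ := by
    intro L hL hPL
    obtain ⟨R₁, hR₁, hR₁le⟩ := exists_pt (hm L hL L₁ hL₁)
    obtain ⟨R₂, hR₂, hR₂le⟩ := exists_pt (hm L hL L₂ hL₂)
    have hne : R₁ ≠ R₂ := by
      rintro rfl
      apply hPL
      have h3 : R₁ ≤ P := by
        rw [← hPeq]
        exact le_inf (hR₁le.trans inf_le_right) (hR₂le.trans inf_le_right)
      rw [← eq_of_pts hR₁ hP h3]
      exact hR₁le.trans inf_le_left
    rw [← sup_pts (h2 L hL) hR₁ hR₂ hne (hR₁le.trans inf_le_left) (hR₂le.trans inf_le_left)]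
    exact sup_le_sup (hR₁le.trans inf_le_right) (hR₂le.trans inf_le_right)
  refine ⟨L₁ ⊔ L₂, hE.le, ?_⟩
  intro L hL
  by_cases hPL : P ≤ L
  · obtain ⟨R, hR, hRle⟩ := exists_pt (hm L hL L₃ hL₃)
    have hne : P ≠ R := by
      rintro rfl
      exact hPL₃ (hRle.trans inf_le_right)
    rw [← sup_pts (h2 L hL) hP hR hne hPL (hRle.trans inf_le_left)]
    exact sup_le (hPL₁.trans le_sup_left) ((hRle.trans inf_le_right).trans (claim L₃ hL₃ hPL₃))
  · exact claim L hL hPL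

end lin

section main

variable {F V : Type} [Field F] [Fintype F] [AddCommGroup V] [Module F V] [Finite V]

lemma br_mono {q a b : ℕ} (h : a ≤ b) : br q a ≤ br q b := by
  unfold br
  refine Finset.sum_le_sum_of_subset_of_nonneg ?_ ?_
  · intro i hi
    rw [Finset.mem_range] at hi ⊢
    omega
  · intro i _ _
    positivity

lemma dg_le_D (hC : S_COUNT) {q n k : ℕ} (hq : Fintype.card F = q) (hn : finrank F V = n)
    (hk : k ≤ n) {𝓕 : Finset (Submodule F V)} (h𝓕 : 𝓕 ⊆ Gr F V k) {W : Submodule F V} {s : ℕ}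
    (hW : finrank F W = s) (hs : s ≤ k) : dg 𝓕 W ≤ D q n k s := by
  rw [← hW, ← hC F V q n k hq hn hk W (by omega)]
  unfold dg
  have : above 𝓕 W ⊆ above (Gr F V k) W := by
    intro A hA
    rw [mem_above] at hA ⊢
    exact ⟨h𝓕 hA.1, hA.2⟩
  exact_mod_cast Finset.card_le_card this

lemma dg_mono {𝓕 : Finset (Submodule F V)} {W W' : Submodule F V}
    (h : ∀ A ∈ 𝓕, W ≤ A → W' ≤ A) : dg 𝓕 W ≤ dg 𝓕 W' := by
  unfold dg
  have : above 𝓕 W ⊆ above 𝓕 W' := by
    intro A hA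
    rw [mem_above] at hA ⊢
    exact ⟨hA.1, h A hA.1 hA.2⟩
  exact_mod_cast Finset.card_le_card this

/-- covering: if all members above the line `L` meet `W`, `W ⊓ L = ⊥`, the degree is small -/
lemma cov (hC : S_COUNT) (hP : S_PTS) {q n k : ℕ} (hq : Fintype.card F = q)
    (hn : finrank F V = n) (hk : k ≤ n) (hk3 : 3 ≤ k) {𝓕 : Finset (Submodule F V)}
    (h𝓕 : 𝓕 ⊆ Gr F V k) {L W : Submodule F V} (hL : finrank F L = 2) (hWL : W ⊓ L = ⊥)
    (h : ∀ B ∈ 𝓕, L ≤ B → B ⊓ W ≠ ⊥) : dg 𝓕 L ≤ br q (finrank F W) * D q n k 3 := by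
  classical
  rw [← hP F V q hq W]
  have h1 : above 𝓕 L ⊆ (pts W).biUnion (fun R => above 𝓕 (L ⊔ R)) := by
    intro B hB
    rw [mem_above] at hB
    obtain ⟨R, hR, hRle⟩ := exists_pt (h B hB.1 hB.2)
    rw [Finset.mem_biUnion]
    refine ⟨R, ?_, ?_⟩
    · rw [mem_pts]
      exact ⟨hR, hRle.trans inf_le_right⟩
    · rw [mem_above]
      exact ⟨hB.1, sup_le hB.2 (hRle.trans inf_le_left)⟩
  have h2 : ((above 𝓕 L).card : ℝ) ≤ ∑ R ∈ pts W, ((above 𝓕 (L ⊔ R)).card : ℝ) := by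
    exact_mod_cast (Finset.card_le_card h1).trans Finset.card_biUnion_le
  have h3 : ∀ R ∈ pts W, ((above 𝓕 (L ⊔ R)).card : ℝ) ≤ D q n k 3 := by
    intro R hR
    rw [mem_pts] at hR
    have hRL : ¬ R ≤ L := by
      intro hle
      have : R ≤ W ⊓ L := le_inf hR.2 hle
      rw [hWL, le_bot_iff] at this
      exact ne_bot_of_finrank (by rw [hR.1]; omega) this
    have hr : finrank F (L ⊔ R : Submodule F V) = 3 := by
      rw [finrank_sup_pt hR.1 hRL, hL]
    exact dg_le_D hC hq hn hk h𝓕 hr hk3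
  calc dg 𝓕 L = ((above 𝓕 L).card : ℝ) := rfl
    _ ≤ ∑ R ∈ pts W, ((above 𝓕 (L ⊔ R)).card : ℝ) := h2
    _ ≤ ∑ _R ∈ pts W, D q n k 3 := Finset.sum_le_sum h3
    _ = _ := by rw [Finset.sum_const, nsmul_eq_mul]

/-- conclusion if all heavy lines lie in a `k`-space -/
lemma fin_of (hP : S_PTS) {q n k : ℕ} (hq : Fintype.card F = q) {𝓕 : Finset (Submodule F V)}
    (hhigh : br q (k + 1) < ((high q n k 𝓕).card : ℝ)) {E : Submodule F V} (hE : finrank F E ≤ k)
    (hall : ∀ L : Submodule F V, finrank F L = 2 → br q k * D q n k 3 < dg 𝓕 L → L ≤ E) :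
    q ^ k + 1 ≤ (exc q n k 𝓕).card := by
  classical
  have h1 : high q n k 𝓕 ⊆ exc q n k 𝓕 ∪ pts E := by
    intro P hPh
    rw [Finset.mem_union]
    by_cases hex : ∀ L : Submodule F V, finrank F L = 2 → P ≤ L → dg 𝓕 L ≤ br q k * D q n k 3
    · left
      rw [mem_exc]
      rw [mem_high] at hPh
      exact ⟨hPh, hex⟩
    · right
      push Not at hex
      obtain ⟨L, hL, hPL, hdg⟩ := hex
      rw [mem_pts]
      rw [mem_high] at hPh
      exact ⟨hPh.1, hPL.trans (hall L hL hdg)⟩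
  have h2 : ((high q n k 𝓕).card : ℝ) ≤ ((exc q n k 𝓕).card : ℝ) + ((pts E).card : ℝ) := by
    exact_mod_cast (Finset.card_le_card h1).trans (Finset.card_union_le _ _)
  rw [hP F V q hq E] at h2
  have h3 := br_mono (q := q) hE
  have h4 : br q (k + 1) = br q k + (q : ℝ) ^ k := by
    unfold br
    rw [Finset.sum_range_succ]
  have h5 : (q : ℝ) ^ k < ((exc q n k 𝓕).card : ℝ) := by linarith
  exact_mod_cast h5

/-- **S_RED** -/
theorem t_RED (hC : S_COUNT) (hP : S_PTS) (hN : S_NUM) : S_RED := by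
  intro F _ _ V _ _ _ q n k hq hn h2k hk4 𝓕 h𝓕 hInt hhigh
  classical
  have hkn : k ≤ n := by omega
  have hq2 : 2 ≤ q := by rw [← hq]; exact Fintype.one_lt_card
  obtain ⟨hpos, -, -, -, -, -, -⟩ := hN q n k hq2 (by omega) (by omega)
  set S : Set (Submodule F V) := {L | finrank F L = 2 ∧ br q k * D q n k 3 < dg 𝓕 L} with hS
  have hkf : ∀ A ∈ 𝓕, finrank F A = k := fun A hA => mem_Gr.mp (h𝓕 hA)
  -- (1)
  have step1 : ∀ L ∈ S, ∀ A ∈ 𝓕, A ⊓ L ≠ ⊥ := by
    intro L hL A hA hbot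
    have h1 := cov hC hP hq hn hkn (by omega) h𝓕 hL.1 hbot (fun B hB _ => hInt B hB A hA)
    rw [hkf A hA] at h1
    exact absurd hL.2 (not_lt.mpr h1)
  -- (2)
  have step2 : ∀ L ∈ S, ∀ L' ∈ S, L ⊓ L' ≠ ⊥ := by
    intro L hL L' hL' hbot
    have h1 := cov hC hP hq hn hkn (by omega) h𝓕 hL'.1 hbot (fun B hB _ => step1 L hL B hB)
    rw [hL.1] at h1
    have h2 : br q 2 * D q n k 3 ≤ br q k * D q n k 3 :=
      mul_le_mul_of_nonneg_right (br_mono (by omega)) (hpos 3).le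
    exact absurd hL'.2 (not_lt.mpr (h1.trans h2))
  rcases lines (fun L hL => hL.1) step2 with ⟨E, hE3, hEall⟩ | ⟨P₀, hP₀, hP₀all⟩
  · exact fin_of hP hq hhigh (E := E) (by omega) (fun L hL hd => hEall L ⟨hL, hd⟩)
  -- members through `P₀` only
  have small : ∀ Q : Submodule F V, finrank F Q = 1 → Q ≠ P₀ → (∀ A ∈ 𝓕, Q ≤ A → P₀ ≤ A) →
      dg 𝓕 Q ≤ D q n k 2 := by
    intro Q hQ hne h
    have h1 : dg 𝓕 Q ≤ dg 𝓕 (Q ⊔ P₀) := dg_mono (fun A hA hQA => sup_le hQA (h A hA hQA))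
    have hr : finrank F (Q ⊔ P₀ : Submodule F V) = 2 := by
      rw [finrank_sup_pt hP₀ (fun hle => hne (eq_of_pts hP₀ hQ hle).symm), hQ]
    exact h1.trans (dg_le_D hC hq hn hkn h𝓕 hr (by omega))
  by_cases hav : ∃ G ∈ 𝓕, ¬ P₀ ≤ G
  swap
  · -- every member contains `P₀`
    exfalso
    push Not at hav
    have h1 : high q n k 𝓕 ⊆ {P₀} := by
      intro Q hQ
      rw [mem_high] at hQ
      rw [Finset.mem_singleton]
      by_contra hne
      exact absurd hQ.2 (not_lt.mpr (small Q hQ.1 hne (fun A hA _ => hav A hA)))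
    have h2 : ((high q n k 𝓕).card : ℝ) ≤ 1 := by
      have := Finset.card_le_card h1
      rw [Finset.card_singleton] at this
      exact_mod_cast this
    have h3 : (1 : ℝ) ≤ br q (k + 1) := by
      have h4 := br_mono (q := q) (show 1 ≤ k + 1 by omega)
      have h5 : br q 1 = 1 := by simp [br]
      linarith
    linarith
  obtain ⟨G, hG, hPG⟩ := hav
  have hsup : ∀ G ∈ 𝓕, ¬ P₀ ≤ G → ∀ L ∈ S, L ≤ G ⊔ P₀ := by
    intro G hG hPG L hL
    obtain ⟨R, hR, hRle⟩ := exists_pt (step1 L hL G hG)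
    have hne : P₀ ≠ R := by
      rintro rfl
      exact hPG (hRle.trans inf_le_left)
    rw [← sup_pts hL.1 hP₀ hR hne (hP₀all L hL) (hRle.trans inf_le_right)]
    exact sup_le le_sup_right ((hRle.trans inf_le_left).trans le_sup_left)
  have hdim : ∀ G ∈ 𝓕, ¬ P₀ ≤ G → finrank F (G ⊔ P₀ : Submodule F V) = k + 1 := by
    intro G hG hPG
    rw [finrank_sup_pt hP₀ hPG, hkf G hG]
  by_cases hsame : ∀ G' ∈ 𝓕, ¬ P₀ ≤ G' → G' ⊔ P₀ = G ⊔ P₀
  · -- all high points in `E = G ⊔ P₀`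
    exfalso
    have h1 : high q n k 𝓕 ⊆ pts (G ⊔ P₀) := by
      intro Q hQ
      rw [mem_high] at hQ
      rw [mem_pts]
      refine ⟨hQ.1, ?_⟩
      by_contra hQE
      have hne : Q ≠ P₀ := by
        rintro rfl
        exact hQE le_sup_right
      refine absurd hQ.2 (not_lt.mpr (small Q hQ.1 hne ?_))
      intro A hA hQA
      by_contra hPA
      apply hQE
      rw [← hsame A hA hPA]
      exact hQA.trans le_sup_left
    have h2 : ((high q n k 𝓕).card : ℝ) ≤ ((pts (G ⊔ P₀)).card : ℝ) := by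
      exact_mod_cast Finset.card_le_card h1
    rw [hP F V q hq, hdim G hG hPG] at h2
    linarith
  · push Not at hsame
    obtain ⟨G', hG', hPG', hne⟩ := hsame
    refine fin_of hP hq hhigh (E := (G' ⊔ P₀) ⊓ (G ⊔ P₀)) ?_ ?_
    · by_contra hlt
      push Not at hlt
      have h1 : (G' ⊔ P₀) ⊓ (G ⊔ P₀) = G' ⊔ P₀ :=
        Submodule.eq_of_le_of_finrank_le inf_le_left (by rw [hdim G' hG' hPG']; omega)
      have h2 : G' ⊔ P₀ ≤ G ⊔ P₀ := by rw [← h1]; exact inf_le_right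
      exact hne (Submodule.eq_of_le_of_finrank_eq h2 (by rw [hdim G' hG' hPG', hdim G hG hPG]))
    · intro L hL hd
      exact le_inf (hsup G' hG' hPG' L ⟨hL, hd⟩) (hsup G hG hPG L ⟨hL, hd⟩)

end main

end Pool.Agent.K1H24.HP
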