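import Mathlib
import Pool.Agent.K1H42.HP.Stm
import Pool.Agent.K1H24.HP.Red

/-!
# Piece `S_HM` of the project HP (helper42): the Hilton-Milner family
-/

set_option autoImplicit false

namespace Pool.Agent.K1H24.HP

open Module Finset Pool.Agent.K1H42.HP

section

variable {F V : Type} [Field F] [Fintype F] [AddCommGroup V] [Module F V] [Finite V]

/-- a `k`-space over `W` exists, in the quantitative form -/
lemma exists_Gr (hC : S_COUNT) (hN : S_NUM) {q n k : ℕ} (hq : Fintype.card F = q)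
    (hn : finrank F V = n) (hk1 : 1 ≤ k) (hk : k < n) :
    ∃ E : Submodule F V, finrank F E = k := by
  have hq2 : 2 ≤ q := by rw [← hq]; exact Fintype.one_lt_card
  have h1 := hC F V q n k hq hn hk.le ⊥ (by rw [finrank_bot]; omega)
  have h2 := (hN q n k hq2 hk1 hk).1 (finrank F (⊥ : Submodule F V))
  rw [← h1] at h2
  unfold dg at h2
  have h3 : 0 < (above (Gr F V k) ⊥).card := by exact_mod_cast h2
  obtain ⟨E, hE⟩ := Finset.card_pos.mp h3
  rw [mem_above, mem_Gr] at hE
  exact ⟨E, hE.1⟩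

/-- a hyperplane of `E` through the point `P` avoiding the point `P₀` -/
lemma exists_hyper {E P P₀ : Submodule F V} {k : ℕ} (hE : finrank F E = k + 1)
    (hP : finrank F P = 1) (hP₀ : finrank F P₀ = 1) (hne : P ≠ P₀) (hPE : P ≤ E) (hP₀E : P₀ ≤ E) :
    ∃ A : Submodule F V, finrank F A = k ∧ A ≤ E ∧ P ≤ A ∧ ¬ P₀ ≤ A := by
  obtain ⟨C', hC'⟩ := Submodule.exists_isCompl (P₀ ⊔ P)
  have hPP : finrank F (P₀ ⊔ P : Submodule F V) = 2 := by
    rw [finrank_sup_pt hP (fun h => hne (eq_of_pts hP hP₀ h)), hP₀]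
  have h1 := Submodule.finrank_sup_add_finrank_inf_eq (P₀ ⊔ P) C'
  rw [hC'.sup_eq_top, hC'.inf_eq_bot, finrank_bot, hPP, finrank_top] at h1
  set C := C' ⊔ P with hCdef
  have htop : C ⊔ P₀ = ⊤ := by
    rw [hCdef, sup_assoc, sup_comm P P₀, sup_comm]
    exact hC'.sup_eq_top
  have h2 := Submodule.finrank_sup_add_finrank_inf_eq C P₀
  have h3 := Submodule.finrank_sup_add_finrank_inf_eq C' P
  rw [htop, finrank_top, hP₀] at h2
  rw [← hCdef, hP] at h3
  have hbot : finrank F (C ⊓ P₀ : Submodule F V) = 0 := by omega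
  have hnot : ¬ P₀ ≤ C := by
    intro h
    rw [inf_eq_right.mpr h, hP₀] at hbot
    omega
  refine ⟨C ⊓ E, ?_, inf_le_right, le_inf le_sup_right hPE, fun h => hnot (h.trans inf_le_left)⟩
  have hmod : (C ⊓ E) ⊔ P₀ = E := by
    have h4 := sup_inf_assoc_of_le C hP₀E
    rw [sup_comm P₀ C, htop, top_inf_eq, sup_comm] at h4
    exact h4.symm
  have h5 := Submodule.finrank_sup_add_finrank_inf_eq (C ⊓ E) P₀
  rw [hmod, hE, hP₀] at h5
  have h6 : finrank F ((C ⊓ E) ⊓ P₀ : Submodule F V) ≤ finrank F (C ⊓ P₀ : Submodule F V) :=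
    Submodule.finrank_mono (inf_le_inf_right _ inf_le_left)
  omega

lemma cnt (hC : S_COUNT) {q n k : ℕ} (hq : Fintype.card F = q)
    (hn : finrank F V = n) (hk : k ≤ n) (hk2 : 2 ≤ k) {𝓕 : Finset (Submodule F V)}
    {W P A₀ : Submodule F V} (hW : finrank F W = 2) (hPW : P ≤ W)
    (h1 : ∀ A ∈ Gr F V k, W ≤ A → A ∈ 𝓕) (hA₀ : A₀ ∈ 𝓕) (hPA₀ : P ≤ A₀) (hWA₀ : ¬ W ≤ A₀) :
    D q n k 2 < dg 𝓕 P := by
  classical
  have h2 := hC F V q n k hq hn hk W (by omega)
  rw [hW] at h2
  rw [← h2]
  unfold dg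
  have h3 : insert A₀ (above (Gr F V k) W) ⊆ above 𝓕 P := by
    intro A hA
    rw [Finset.mem_insert] at hA
    rw [mem_above]
    rcases hA with rfl | hA
    · exact ⟨hA₀, hPA₀⟩
    · rw [mem_above] at hA
      exact ⟨h1 A hA.1 hA.2, hPW.trans hA.2⟩
  have h4 : A₀ ∉ above (Gr F V k) W := by
    rw [mem_above]
    exact fun h => hWA₀ h.2
  have h5 := Finset.card_le_card h3
  rw [Finset.card_insert_of_notMem h4] at h5
  exact_mod_cast h5

end

theorem t_HM (hC : S_COUNT) (hP : S_PTS) (hN : S_NUM) : S_HM := by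
  intro F _ _ V _ _ _ q n k hq hn h2k hk4
  classical
  have hkn : k ≤ n := by omega
  have hq2 : 2 ≤ q := by rw [← hq]; exact Fintype.one_lt_card
  obtain ⟨hpos, -, hdec, -, -, -, -⟩ := hN q n k hq2 (by omega) (by omega)
  obtain ⟨E, hE⟩ := exists_Gr (F := F) (V := V) hC hN hq hn (k := k + 1) (by omega) (by omega)
  obtain ⟨P₀, hP₀, hP₀E⟩ := exists_pt (ne_bot_of_finrank (W := E) (by omega))
  refine ⟨(Gr F V k).filter
    (fun A => (P₀ ≤ A ∧ 2 ≤ finrank F (A ⊓ E : Submodule F V)) ∨ A ≤ E), filter_subset _ _, ?_, ?_⟩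
  · intro A hA B hB
    rw [mem_filter, mem_Gr] at hA hB
    obtain ⟨hAk, hA⟩ := hA
    obtain ⟨hBk, hB⟩ := hB
    have key : ∀ X Y : Submodule F V, X ≤ E → Y ≤ E → k + 2 ≤ finrank F X + finrank F Y →
        X ⊓ Y ≠ ⊥ := by
      intro X Y hX hY h hbot
      have h1 := Submodule.finrank_sup_add_finrank_inf_eq X Y
      have h2 := Submodule.finrank_mono (sup_le hX hY)
      rw [hbot, finrank_bot] at h1
      omega
    intro hbot
    rcases hA with ⟨hA1, hA2⟩ | hA
    · rcases hB with ⟨hB1, hB2⟩ | hB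
      · have : P₀ ≤ A ⊓ B := le_inf hA1 hB1
        rw [hbot, le_bot_iff] at this
        exact ne_bot_of_finrank (by rw [hP₀]; omega) this
      · refine key (A ⊓ E) B inf_le_right hB (by omega) ?_
        rw [eq_bot_iff, ← hbot]
        exact inf_le_inf_right _ inf_le_left
    · rcases hB with ⟨hB1, hB2⟩ | hB
      · refine key A (B ⊓ E) hA inf_le_right (by omega) ?_
        rw [eq_bot_iff, ← hbot]
        exact inf_le_inf_left _ inf_le_left
      · exact key A B hA hB (by omega) hbot
  · rw [← hE, ← hP F V q hq E]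
    have hsub : pts E ⊆ high q n k ((Gr F V k).filter
        (fun A => (P₀ ≤ A ∧ 2 ≤ finrank F (A ⊓ E : Submodule F V)) ∨ A ≤ E)) := by
      intro P hPE
      rw [mem_pts] at hPE
      obtain ⟨hP1, hPE⟩ := hPE
      rw [mem_high]
      refine ⟨hP1, ?_⟩
      have hover : ∀ W : Submodule F V, finrank F W = 2 → P₀ ≤ W → W ≤ E → ∀ A ∈ Gr F V k, W ≤ A →
          A ∈ (Gr F V k).filter
            (fun A => (P₀ ≤ A ∧ 2 ≤ finrank F (A ⊓ E : Submodule F V)) ∨ A ≤ E) := by
        intro W hW hPW hWE A hA hWA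
        rw [mem_filter]
        refine ⟨hA, Or.inl ⟨hPW.trans hWA, ?_⟩⟩
        rw [← hW]
        exact Submodule.finrank_mono (le_inf hWA hWE)
      by_cases hne : P = P₀
      · subst hne
        obtain ⟨R, hR, hRE, hPR⟩ : ∃ R : Submodule F V, finrank F R = 1 ∧ R ≤ E ∧ ¬ R ≤ P := by
          by_contra hcon
          push Not at hcon
          have : E ≤ P := by
            intro x hx
            by_cases hx0 : x = 0
            · rw [hx0]; exact P.zero_mem
            · have h1 : Submodule.span F {x} ≤ P := hcon _ (finrank_span_singleton hx0)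
                (by rw [Submodule.span_singleton_le_iff_mem]; exact hx)
              rwa [Submodule.span_singleton_le_iff_mem] at h1
          have := Submodule.finrank_mono this
          omega
        have hL : finrank F (P ⊔ R : Submodule F V) = 2 := by
          rw [finrank_sup_pt hR hPR, hP1]
        obtain ⟨R', hR', hR'E, hLR'⟩ : ∃ R' : Submodule F V, finrank F R' = 1 ∧ R' ≤ E ∧
            ¬ R' ≤ P ⊔ R := by
          by_contra hcon
          push Not at hcon
          have : E ≤ P ⊔ R := by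
            intro x hx
            by_cases hx0 : x = 0
            · rw [hx0]; exact Submodule.zero_mem _
            · have h1 : Submodule.span F {x} ≤ P ⊔ R := hcon _ (finrank_span_singleton hx0)
                (by rw [Submodule.span_singleton_le_iff_mem]; exact hx)
              rwa [Submodule.span_singleton_le_iff_mem] at h1
          have := Submodule.finrank_mono this
          omega
        have hPR' : ¬ R' ≤ P := fun h => hLR' (h.trans le_sup_left)
        have hL' : finrank F (P ⊔ R' : Submodule F V) = 2 := by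
          rw [finrank_sup_pt hR' hPR', hP1]
        have hLL : finrank F ((P ⊔ R) ⊔ R' : Submodule F V) = 3 := by
          rw [finrank_sup_pt hR' hLR', hL]
        -- a member over `L'` but not over `L`
        obtain ⟨A₀, hA₀, hA₀L', hA₀L⟩ : ∃ A₀ ∈ Gr F V k, P ⊔ R' ≤ A₀ ∧ ¬ P ⊔ R ≤ A₀ := by
          by_contra hcon
          push Not at hcon
          have h1 : dg (Gr F V k) (P ⊔ R') ≤ dg (Gr F V k) ((P ⊔ R) ⊔ R') :=
            dg_mono (fun A hA hle => sup_le (hcon A hA hle) (le_sup_right.trans hle))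
          rw [hC F V q n k hq hn hkn _ (by omega), hC F V q n k hq hn hkn _ (by omega), hL', hLL]
            at h1
          have h2 := hdec 2 3 (by omega) (by omega)
          have h3 := hpos 3
          have h4 : (2 : ℝ) ≤ (q : ℝ) ^ ((3 - 2) * (n - k)) := by
            have h5 : (2 : ℝ) ≤ q := by exact_mod_cast hq2
            have h6 : 1 ≤ (3 - 2) * (n - k) := by omega
            calc (2 : ℝ) ≤ q := h5
              _ = (q : ℝ) ^ 1 := (pow_one _).symm
              _ ≤ (q : ℝ) ^ ((3 - 2) * (n - k)) := pow_le_pow_right₀ (by linarith) h6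
          nlinarith
        refine cnt hC hq hn hkn (by omega) hL le_sup_left
          (hover _ hL le_sup_left (sup_le hPE hRE))
          (hover _ hL' le_sup_left (sup_le hPE hR'E) A₀ hA₀ hA₀L')
          (le_sup_left.trans hA₀L') hA₀L
      · obtain ⟨A₀, hA₀, hA₀E, hPA₀, hP₀A₀⟩ := exists_hyper hE hP1 hP₀ hne hPE hP₀E
        have hL : finrank F (P₀ ⊔ P : Submodule F V) = 2 := by
          rw [finrank_sup_pt hP1 (fun h => hne (eq_of_pts hP1 hP₀ h)), hP₀]
        refine cnt hC hq hn hkn (by omega) hL le_sup_right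
          (hover _ hL le_sup_left (sup_le hP₀E hPE)) (A₀ := A₀) ?_ hPA₀
          (fun h => hP₀A₀ (le_sup_left.trans h))
        rw [mem_filter, mem_Gr]
        exact ⟨hA₀, Or.inr hA₀E⟩
    exact_mod_cast Finset.card_le_card hsub

end Pool.Agent.K1H24.HP
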